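import Pool.Agent.Helper93_LSF.Inner2
import Pool.Agent.LE.StmtsIF

/-!
# Between the effective band edge and the bulk, all dimensions
-/

set_option autoImplicit false

open MeasureTheory ProbabilityTheory Function Filter

open scoped ENNReal BigOperators Topology NNReal

noncomputable section

namespace Pool.Agent.LE.H93F

open Pool.Agent.Anderson Pool.Agent.Loc Pool.Agent.Mob Pool.Agent.Helper54.Bal Pool.Agent.BED
  Pool.Agent.LE.H93W Pool.Agent.LE.H93Z Pool.Agent.LE.CL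

/-- the Lyapunov exponent inside of the effective band edge, all dimensions -/
theorem innerF (fle : FleStmt) (sgx : SgxStmt) (sms : SmsStmt) (cdp : CdpStmt) (upx : UpxStmt)
    (flq : IR.FlqStmt) (pif : IR.PifStmt)
    (hexE : ∀ (d : ℕ) (σ E : ℝ), 1 ≤ d → σ ≠ 0 → ∃ g, LyaAt d σ E g)
    (d : ℕ) (hd3 : 3 ≤ d) (c' : ℝ) (hc' : 0 < c') :
    ∃ c K η₀ : ℝ, 0 < c ∧ c ≤ 1 / 75 ∧ 1 ≤ K ∧ 0 < η₀ ∧ ∀ (σ lam L Es g : ℝ), σ ≠ 0 → |σ| ≤ c →
      0 < lam → lam ≤ c → L = Real.log (1 / |σ|) + Real.log (1 / lam) → |Es - 2 * d| ≤ η₀ →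
      (∀ E g : ℝ, Es + lam / 75 ≤ E → E ≤ Es + c' → LyaAt d σ E g →
        1 / 2 * Real.sqrt (E - Es) ≤ g ∧ g ≤ 3 / 2 * Real.sqrt (E - Es)) →
      K * σ ^ 2 * growth d (1 / lam) * L ^ (2 * d + 10) ≤ 1 →
      LyaAt d σ (Es - lam) g →
      g ≤ K * σ ^ 2 * growth d (1 / lam) * L ^ (d + 8) := by
  obtain ⟨K₀, hK₀, hpie'⟩ := pif d hd3
  obtain ⟨Kε, c1, s, B, η₀, hKε, hc1, hs, hB, hη₀, htwo⟩ :=
    two_edges fle sgx sms cdp upx flq hexE d hd3 K₀ c' hK₀ hc'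
  obtain ⟨cp, Kp, hcp, hcp4, hKp, hpie⟩ := hpie' Kε hKε
  obtain ⟨c, hcd⟩ : ∃ c : ℝ, c = min (min c1 cp) (min (1 / 75) (min (75 / B) (75 / Kp))) :=
    ⟨_, rfl⟩
  have hB0 : 0 < B := by linarith only [hB]
  have hKp0 : 0 < Kp := by linarith only [hKp]
  have hc : 0 < c := by rw [hcd]; positivity
  have k1 : c ≤ c1 := by rw [hcd]; exact (min_le_left _ _).trans (min_le_left _ _)
  have k2 : c ≤ cp := by rw [hcd]; exact (min_le_left _ _).trans (min_le_right _ _)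
  have k3 : c ≤ 1 / 75 := by rw [hcd]; exact (min_le_right _ _).trans (min_le_left _ _)
  have k4 : c * B ≤ 75 := by
    have : c ≤ 75 / B := by
      rw [hcd]; exact (min_le_right _ _).trans ((min_le_right _ _).trans (min_le_left _ _))
    rwa [le_div_iff₀ hB0] at this
  have k5 : c * Kp ≤ 75 := by
    have : c ≤ 75 / Kp := by
      rw [hcd]; exact (min_le_right _ _).trans ((min_le_right _ _).trans (min_le_right _ _))
    rwa [le_div_iff₀ hKp0] at this
  obtain ⟨K, hKd⟩ : ∃ K : ℝ, K = Kp * 75 * 2 ^ (2 * d + 10) + 150 / s +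
    Kp * 75 * 2 ^ (d + 8) := ⟨_, rfl⟩
  have q1 : 0 < Kp * 75 * 2 ^ (2 * d + 10) := by positivity
  have q2 : 0 < 150 / s := by positivity
  have q3 : 0 < Kp * 75 * 2 ^ (d + 8) := by positivity
  have j1 : Kp * 75 * 2 ^ (2 * d + 10) ≤ K := by linarith only [hKd, q2, q3]
  have j2 : 150 / s ≤ K := by linarith only [hKd, q1, q3]
  have j3 : Kp * 75 * 2 ^ (d + 8) ≤ K := by linarith only [hKd, q1, q2]
  have hK1 : 1 ≤ K := by
    refine le_trans ?_ j3
    have h1 : (1 : ℝ) ≤ 2 ^ (d + 8) := one_le_pow₀ (by norm_num)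
    calc (1 : ℝ) ≤ 1 * 75 * 1 := by norm_num
      _ ≤ Kp * 75 * 2 ^ (d + 8) := by gcongr
  have hK0 : 0 < K := by linarith only [hK1]
  refine ⟨c, K, η₀, hc, k3, hK1, hη₀, ?_⟩
  intro σ lam L Es g hσ hσc hl0 hlc hL hEs hasy hH hg
  have hσ0 : 0 < |σ| := abs_pos.2 hσ
  have hσ75 : |σ| ≤ 1 / 75 := hσc.trans k3
  have hl75 : lam ≤ 1 / 75 := hlc.trans k3
  have hσ2 : 0 < σ ^ 2 := by positivity
  have hi : 75 ≤ 1 / |σ| := by
    rw [le_div_iff₀ hσ0]
    linarith only [hσ75]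
  have hil : 75 ≤ 1 / lam := by
    rw [le_div_iff₀ hl0]
    linarith only [hl75]
  have hil1 : 1 ≤ 1 / lam := by linarith only [hil]
  have hlog75 : 1 ≤ Real.log 75 := by
    rw [Real.le_log_iff_exp_le (by norm_num)]
    have := Real.exp_one_lt_d9
    linarith only [this]
  have hlσ : Real.log 75 ≤ Real.log (1 / |σ|) := Real.log_le_log (by norm_num) hi
  have hll : 0 ≤ Real.log (1 / lam) := Real.log_nonneg hil1
  have hL1 : 1 ≤ L := by linarith only [hL, hlσ, hll, hlog75]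
  have hL0 : 0 < L := by linarith only [hL1]
  obtain ⟨t, ht⟩ : ∃ t : ℝ, t = 75 * (1 / lam) := ⟨_, rfl⟩
  have ht0 : 0 < t := by rw [ht]; positivity
  have htl : lam * t = 75 := by rw [ht]; field_simp
  have ht1 : 1 ≤ t := by linarith only [ht, hil]
  have htB : B ≤ t := by
    have h1 : c * B ≤ c * t := by
      refine k4.trans ?_
      rw [← htl]
      exact mul_le_mul_of_nonneg_right hlc ht0.le
    exact le_of_mul_le_mul_left h1 hc
  have htK : Kp ≤ t := by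
    have h1 : c * Kp ≤ c * t := by
      refine k5.trans ?_
      rw [← htl]
      exact mul_le_mul_of_nonneg_right hlc ht0.le
    exact le_of_mul_le_mul_left h1 hc
  have h1t : 1 / t = lam / 75 := by
    rw [ht]
    field_simp
  obtain ⟨L', hL'⟩ : ∃ L' : ℝ, L' = Real.log (1 / |σ|) + Real.log t := ⟨_, rfl⟩
  have hlt : Real.log t = Real.log 75 + Real.log (1 / lam) := by
    rw [ht, Real.log_mul (by norm_num) (by positivity)]
  have hL'2 : L' ≤ 2 * L := by linarith only [hL', hL, hlt, hlσ, hll]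
  have hL'0 : 0 ≤ L' := by linarith only [hL', hL, hlt, hlog75, hL1]
  obtain ⟨G, hG⟩ : ∃ G : ℝ, G = growth d (1 / lam) := ⟨_, rfl⟩
  rw [← hG] at hH ⊢
  have hG1 : 1 ≤ G := by rw [hG]; exact one_le_growth d hil1
  have hG0 : 0 < G := by linarith only [hG1]
  have hgt : growth d t ≤ 75 * G := by
    rw [ht, hG]
    exact growth_mul d (by norm_num) hil1
  have hgt1 := one_le_growth d ht1
  have hgt0 : 0 < growth d t := by linarith only [hgt1]
  have hS1 : K * σ ^ 2 * G * L ≤ 1 := by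
    have h1 : L ≤ L ^ (2 * d + 10) := le_self_pow₀ hL1 (by omega)
    exact (mul_le_mul_of_nonneg_left h1 (by positivity)).trans hH
  have hS2 : σ ^ 2 * growth d t * L' ≤ s := by
    have h1 : σ ^ 2 * growth d t * L' ≤ σ ^ 2 * (75 * G) * (2 * L) := by gcongr
    have h2 : 150 * (σ ^ 2 * G * L) ≤ s := by
      have h3 : 150 / s * (σ ^ 2 * G * L) ≤ 1 := by
        refine le_trans ?_ hS1
        calc 150 / s * (σ ^ 2 * G * L) ≤ K * (σ ^ 2 * G * L) :=
              mul_le_mul_of_nonneg_right j2 (by positivity)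
          _ = _ := by ring
      have h4 := mul_le_mul_of_nonneg_left h3 hs.le
      have e1 : s * (150 / s * (σ ^ 2 * G * L)) = 150 * (σ ^ 2 * G * L) := by field_simp
      linarith only [h4, e1]
    calc σ ^ 2 * growth d t * L' ≤ σ ^ 2 * (75 * G) * (2 * L) := h1
      _ = 150 * (σ ^ 2 * G * L) := by ring
      _ ≤ s := h2
  obtain ⟨X, hX⟩ : ∃ X : ℝ, X = (t / |σ|) ^ K₀ := ⟨_, rfl⟩
  have hX1 : 1 ≤ X := by
    rw [hX]
    refine Real.one_le_rpow ?_ (by linarith only [hK₀])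
    rw [le_div_iff₀ hσ0]
    linarith only [hσ75, ht1]
  obtain ⟨M', hM'⟩ : ∃ M' : ℕ, M' = ⌈X⌉₊ := ⟨_, rfl⟩
  have hM1 : X ≤ M' := by rw [hM']; exact Nat.le_ceil X
  have hM2 : (M' : ℝ) ≤ 2 * X := by
    have : (M' : ℝ) < X + 1 := by
      rw [hM']
      exact Nat.ceil_lt_add_one (by linarith only [hX1])
    linarith only [this, hX1]
  rw [hX] at hM1 hM2
  obtain ⟨v, hv⟩ : ∃ v : ℝ≥0, (v : ℝ) = σ ^ 2 := ⟨⟨σ ^ 2, sq_nonneg σ⟩, rfl⟩
  obtain ⟨z, μ, ε, p, hz, hμ1, hμ2, hε, hε2, hp0, hp, hflat, hEz⟩ :=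
    htwo M' v σ t L' Es hσ (hσc.trans k1) hv htB hL' hS2 hM1 hM2 hEs (by rw [h1t]; exact hasy)
  obtain ⟨l', hl'⟩ : ∃ l' : ℝ, l' = z - (Es - lam) := ⟨_, rfl⟩
  have hEl : Es - lam = z - l' := by rw [hl']; ring
  have h9 : 9 / t = 9 * lam / 75 := by
    have : 9 / t = 9 * (1 / t) := by ring
    rw [this, h1t]
    ring
  rw [h9] at hEz
  obtain ⟨w1, w2⟩ := abs_le.1 hEz
  have l1 : 2 / 3 * lam ≤ l' := by linarith only [hl', w1, w2, hl0]
  have l2 : l' ≤ 4 / 3 * lam := by linarith only [hl', w1, w2, hl0]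
  have h50 : 50 / t ≤ l' := by
    have : 50 / t = 50 * (1 / t) := by ring
    rw [this, h1t]
    linarith only [l1]
  have h100 : l' ≤ 100 / t := by
    have : 100 / t = 100 * (1 / t) := by ring
    rw [this, h1t]
    linarith only [l2]
  have hcond : Kp * σ ^ 2 * growth d t * L' ^ (2 * d + 10) ≤ 1 := by
    have h1 : Kp * σ ^ 2 * growth d t * L' ^ (2 * d + 10) ≤
        Kp * σ ^ 2 * (75 * G) * (2 * L) ^ (2 * d + 10) := by gcongr
    refine h1.trans (le_trans ?_ hH)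
    calc Kp * σ ^ 2 * (75 * G) * (2 * L) ^ (2 * d + 10) =
          (Kp * 75 * 2 ^ (2 * d + 10)) * (σ ^ 2 * G * L ^ (2 * d + 10)) := by
            rw [mul_pow]
            ring
      _ ≤ K * (σ ^ 2 * G * L ^ (2 * d + 10)) :=
          mul_le_mul_of_nonneg_right j1 (by positivity)
      _ = _ := by ring
  have hfin := hpie M' v σ t z μ ε p l' L' g hσ (hσc.trans k2) hv htK hL' hz hμ1 hμ2 h50 h100 hε
    hε2 hcond hM1 hM2 hflat hp0 hp (by rw [← hEl]; exact hg)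
  refine hfin.trans ?_
  calc Kp * σ ^ 2 * growth d t * L' ^ (d + 8)
      ≤ Kp * σ ^ 2 * (75 * G) * (2 * L) ^ (d + 8) := by gcongr
    _ = (Kp * 75 * 2 ^ (d + 8)) * (σ ^ 2 * G * L ^ (d + 8)) := by
        rw [mul_pow]
        ring
    _ ≤ K * (σ ^ 2 * G * L ^ (d + 8)) :=
        mul_le_mul_of_nonneg_right j3 (by positivity)
    _ = _ := by ring

end Pool.Agent.LE.H93F
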