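import Pool.Agent.Helper93_LSF.Numb
import Pool.Agent.Helper93_LSF3.InnerF

/-!
# Between the effective band edge and the bulk: numbers, all dimensions
-/

set_option autoImplicit false

open MeasureTheory ProbabilityTheory Function Filter

open scoped ENNReal BigOperators Topology NNReal

noncomputable section

namespace Pool.Agent.LE.H93F

open Pool.Agent.Anderson Pool.Agent.Loc Pool.Agent.Mob Pool.Agent.Helper54.Bal Pool.Agent.BED
  Pool.Agent.LE.H93W Pool.Agent.LE.H93Z Pool.Agent.LE.CL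

/-- the condition implies that `lam` is outside of the window -/
theorem cond_windowF {d : ℕ} (hd3 : 3 ≤ d) {c₁ K σ lam L : ℝ} (hc₁ : 0 < c₁)
    (hK : 4 / c₁ ^ 2 + 300 / c₁ + 2 / c₁ + 1 ≤ K) (hσ : σ ≠ 0) (hσ75 : |σ| ≤ 1 / 75)
    (hl0 : 0 < lam) (hl75 : lam ≤ 1 / 75) (hL : L = Real.log (1 / |σ|) + Real.log (1 / lam))
    (hH : K * σ ^ 2 * growth d (1 / lam) * L ^ (2 * d + 10) ≤ 1) :
    LOC.window d c₁ σ ≤ lam / 75 := by
  have hσ0 : 0 < |σ| := abs_pos.2 hσ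
  have hσ2 : 0 < σ ^ 2 := by positivity
  have hσsq : σ ^ 2 = |σ| ^ 2 := (sq_abs σ).symm
  have hi : 75 ≤ 1 / |σ| := by
    rw [le_div_iff₀ hσ0]
    linarith only [hσ75]
  have hil : 75 ≤ 1 / lam := by
    rw [le_div_iff₀ hl0]
    linarith only [hl75]
  have hil1 : 1 ≤ 1 / lam := by linarith only [hil]
  have hlog75 : 1 ≤ Real.log 75 := by
    rw [Real.le_log_iff_exp_le (by norm_num)]
    have := Real.exp_one_lt_d9
    linarith only [this]
  have hlσ : Real.log 75 ≤ Real.log (1 / |σ|) := Real.log_le_log (by norm_num) hi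
  have hll : Real.log 75 ≤ Real.log (1 / lam) := Real.log_le_log (by norm_num) hil
  have hL1 : 1 ≤ L := by linarith only [hL, hlσ, hll, hlog75]
  have hL0 : 0 < L := by linarith only [hL1]
  have q1 : 0 < 4 / c₁ ^ 2 := by positivity
  have q2 : 0 < 300 / c₁ := by positivity
  have q3 : 0 < 2 / c₁ := by positivity
  have hK1 : 1 ≤ K := by linarith only [hK, q1, q2, q3]
  have hK0 : 0 < K := by linarith only [hK1]
  have hG1 : 1 ≤ growth d (1 / lam) := one_le_growth d hil1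
  have hlll : Real.log (1 / lam) = -Real.log lam := by rw [one_div, Real.log_inv]
  -- an exponential window
  have hexp : ∀ w : ℝ, 2 * L ≤ w → Real.exp (-w) ≤ lam / 75 := by
    intro w hw
    have h1 : -w ≤ Real.log (lam / 75) := by
      rw [Real.log_div hl0.ne' (by norm_num)]
      linarith only [hw, hL, hlσ, hll, hlll, hlog75]
    calc Real.exp (-w) ≤ Real.exp (Real.log (lam / 75)) := Real.exp_le_exp.2 h1
      _ = lam / 75 := Real.exp_log (by positivity)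
  by_cases h3 : d = 3
  · subst h3
    unfold LOC.window
    rw [if_pos rfl]
    unfold growth at hH
    rw [if_pos rfl] at hH
    have hs0 : 0 < Real.sqrt lam := Real.sqrt_pos.2 hl0
    have hs2 : Real.sqrt lam ^ 2 = lam := Real.sq_sqrt hl0.le
    -- `K σ² L¹⁶ ≤ √lam`
    have h1 : K * σ ^ 2 * L ^ 16 ≤ Real.sqrt lam := by
      have e0 : Real.sqrt (1 / lam) * Real.sqrt lam = 1 := by
        rw [← Real.sqrt_mul (by positivity), one_div, inv_mul_cancel₀ hl0.ne', Real.sqrt_one]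
      have h2 := mul_le_mul_of_nonneg_right hH hs0.le
      calc K * σ ^ 2 * L ^ 16 = K * σ ^ 2 * L ^ 16 * (Real.sqrt (1 / lam) * Real.sqrt lam) := by
            rw [e0, mul_one]
        _ = K * σ ^ 2 * Real.sqrt (1 / lam) * L ^ (2 * 3 + 10) * Real.sqrt lam := by ring
        _ ≤ 1 * Real.sqrt lam := h2
        _ = Real.sqrt lam := one_mul _
    have h2 : (K * σ ^ 2 * L ^ 16) ^ 2 ≤ lam := by
      rw [← hs2]
      exact pow_le_pow_left₀ (by positivity) h1 2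
    have h4 : 1 + Real.log (1 / |σ|) ≤ 2 * L := by
      linarith only [hL, hL1, hll, hlog75]
    have h5 : 0 ≤ 1 + Real.log (1 / |σ|) := by linarith only [hlσ, hlog75]
    have h6 : (1 + Real.log (1 / |σ|)) ^ 2 ≤ 4 * L ^ 32 := by
      have h7 : (1 + Real.log (1 / |σ|)) ^ 2 ≤ (2 * L) ^ 2 := pow_le_pow_left₀ h5 h4 2
      have h8 : L ^ 2 ≤ L ^ 32 := pow_le_pow_right₀ hL1 (by norm_num)
      calc (1 + Real.log (1 / |σ|)) ^ 2 ≤ (2 * L) ^ 2 := h7
        _ = 4 * L ^ 2 := by ring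
        _ ≤ _ := mul_le_mul_of_nonneg_left h8 (by norm_num)
    rw [div_le_div_iff₀ hc₁ (by norm_num)]
    have h9 : 300 ≤ K * c₁ := by
      have : 300 / c₁ ≤ K := by linarith only [hK, q1, q3]
      rwa [div_le_iff₀ hc₁] at this
    calc σ ^ 4 * (1 + Real.log (1 / |σ|)) ^ 2 * 75 ≤ σ ^ 4 * (4 * L ^ 32) * 75 := by gcongr
      _ = 300 * (σ ^ 4 * L ^ 32) := by ring
      _ ≤ (K * c₁) * (σ ^ 4 * L ^ 32) := mul_le_mul_of_nonneg_right h9 (by positivity)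
      _ ≤ (K * (K * c₁)) * (σ ^ 4 * L ^ 32) := by
          refine mul_le_mul_of_nonneg_right ?_ (by positivity)
          have := mul_le_mul_of_nonneg_right hK1 (by positivity : 0 ≤ K * c₁)
          linarith only [this]
      _ = (K * σ ^ 2 * L ^ 16) ^ 2 * c₁ := by ring
      _ ≤ lam * c₁ := mul_le_mul_of_nonneg_right h2 hc₁.le
  · -- `K σ² L ^ (2 d + 10) ≤ 1`
    have h1 : K * σ ^ 2 * L ^ (2 * d + 10) ≤ 1 := by
      calc K * σ ^ 2 * L ^ (2 * d + 10) = K * σ ^ 2 * 1 * L ^ (2 * d + 10) := by ring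
        _ ≤ K * σ ^ 2 * growth d (1 / lam) * L ^ (2 * d + 10) := by gcongr
        _ ≤ 1 := hH
    have h2 : K * σ ^ 2 * L ^ 2 ≤ 1 := by
      refine le_trans ?_ h1
      have : L ^ 2 ≤ L ^ (2 * d + 10) := pow_le_pow_right₀ hL1 (by omega)
      exact mul_le_mul_of_nonneg_left this (by positivity)
    unfold LOC.window
    rw [if_neg h3]
    split_ifs with h4
    · -- `exp (- c₁ / |σ|)`
      rw [neg_div]
      refine hexp _ ?_
      rw [le_div_iff₀ hσ0]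
      have h5 : 4 ≤ K * c₁ ^ 2 := by
        have : 4 / c₁ ^ 2 ≤ K := by linarith only [hK, q2, q3]
        rwa [div_le_iff₀ (by positivity)] at this
      have h6 : (2 * L * |σ|) ^ 2 ≤ c₁ ^ 2 := by
        have h7 : 4 * (σ ^ 2 * L ^ 2) ≤ (K * c₁ ^ 2) * (σ ^ 2 * L ^ 2) :=
          mul_le_mul_of_nonneg_right h5 (by positivity)
        have h8 : (K * σ ^ 2 * L ^ 2) * c₁ ^ 2 ≤ 1 * c₁ ^ 2 :=
          mul_le_mul_of_nonneg_right h2 (by positivity)
        calc (2 * L * |σ|) ^ 2 = 4 * (σ ^ 2 * L ^ 2) := by rw [hσsq]; ring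
          _ ≤ (K * c₁ ^ 2) * (σ ^ 2 * L ^ 2) := h7
          _ = (K * σ ^ 2 * L ^ 2) * c₁ ^ 2 := by ring
          _ ≤ c₁ ^ 2 := by rw [one_mul] at h8; exact h8
      exact le_of_sq_le_sq h6 hc₁.le
    · rw [neg_div]
      refine hexp _ ?_
      rw [le_div_iff₀ hσ2]
      have h5 : 2 ≤ K * c₁ := by
        have : 2 / c₁ ≤ K := by linarith only [hK, q1, q2]
        rwa [div_le_iff₀ hc₁] at this
      have h6 : K * σ ^ 2 * L ≤ 1 := by
        refine le_trans ?_ h2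
        have : L ≤ L ^ 2 := le_self_pow₀ hL1 (by norm_num)
        exact mul_le_mul_of_nonneg_left this (by positivity)
      calc 2 * L * σ ^ 2 = 2 * (σ ^ 2 * L) := by ring
        _ ≤ (K * c₁) * (σ ^ 2 * L) := mul_le_mul_of_nonneg_right h5 (by positivity)
        _ = (K * σ ^ 2 * L) * c₁ := by ring
        _ ≤ 1 * c₁ := mul_le_mul_of_nonneg_right h6 hc₁.le
        _ = c₁ := one_mul _

/-- the mean free path, `d ≥ 5`, close to the edge -/
theorem mfpF {d : ℕ} (hd5 : 5 ≤ d) {c₁ C₁ K : ℝ} (hc₁ : 0 < c₁) (hC₁ : 0 < C₁)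
    (hK : 1 ≤ K) :
    ∃ c C : ℝ, 0 < c ∧ 1 ≤ C ∧ ∀ σ D g : ℝ, σ ≠ 0 → |σ| ≤ c → 0 ≤ D → D ≤ 1 / 75 →
      g ≤ C₁ * Real.sqrt (D + LOC.window d c₁ σ) *
        (Real.log (1 / |σ|) + Real.log (1 / (D + LOC.window d c₁ σ))) ^ 2 →
      (0 < D → K * σ ^ 2 * growth d (1 / D) *
          (Real.log (1 / |σ|) + Real.log (1 / D)) ^ (2 * d + 10) ≤ 1 →
        g ≤ K * σ ^ 2 * growth d (1 / D) *
          (Real.log (1 / |σ|) + Real.log (1 / D)) ^ (d + 8)) →
      g ≤ C * σ ^ 2 * Real.log (1 / |σ|) ^ (d + 19) := by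
  have hK0 : 0 < K := by linarith only [hK]
  obtain ⟨A, hAd⟩ : ∃ A : ℝ, A = 2 * (4 / c₁ + 1) + 2 := ⟨_, rfl⟩
  have q0 : 0 < 4 / c₁ := by positivity
  have hA2 : 2 ≤ A := by linarith only [hAd, q0]
  have hA0 : 0 < A := by linarith only [hA2]
  have hAc : 2 * (4 / c₁ + 1) ≤ A := by linarith only [hAd]
  obtain ⟨η, hηd⟩ : ∃ η : ℝ, η = Real.exp (-2) / A := ⟨_, rfl⟩
  have hη : 0 < η := by rw [hηd]; positivity
  have hη1 : A * η ≤ Real.exp (-2) := by
    rw [hηd]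
    exact le_of_eq (by field_simp)
  obtain ⟨s, hs, hsl⟩ := small_log 20 hη
  obtain ⟨s', hs', hsl''⟩ := small_log (2 * d + 10)
    (show 0 < 1 / (K * 5 ^ (2 * d + 10)) by positivity)
  refine ⟨min (min s (1 / 75)) (min (c₁ ^ 5 / 120) s'), 25 * C₁ * A + K * 5 ^ (d + 8) + 1,
    by positivity, ?_, ?_⟩
  · have : 0 < 25 * C₁ * A := by positivity
    have : 0 < K * 5 ^ (d + 8) := by positivity
    linarith
  intro σ D g hσ hσc hD0 hD75 hg1 hg2
  have hσs : |σ| ≤ s := hσc.trans ((min_le_left _ _).trans (min_le_left _ _))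
  have hσ75 : |σ| ≤ 1 / 75 := hσc.trans ((min_le_left _ _).trans (min_le_right _ _))
  have hσc₁ : |σ| ≤ c₁ ^ 5 / 120 := hσc.trans ((min_le_right _ _).trans (min_le_left _ _))
  have hσs' : |σ| ≤ s' := hσc.trans ((min_le_right _ _).trans (min_le_right _ _))
  have hσ0 : 0 < |σ| := abs_pos.2 hσ
  have hσ1 : |σ| ≤ 1 := by linarith only [hσ75]
  have hσ4 : σ ^ 4 = |σ| ^ 4 := by
    rw [← abs_pow]
    exact (abs_of_nonneg (by positivity)).symm
  have hσsq : σ ^ 2 = |σ| ^ 2 := (sq_abs σ).symm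
  have hσ2 : 0 < σ ^ 2 := by positivity
  have hσ40 : 0 < σ ^ 4 := by positivity
  have hi : 75 ≤ 1 / |σ| := by
    rw [le_div_iff₀ hσ0]
    linarith only [hσ75]
  obtain ⟨ℓ, hℓd⟩ : ∃ ℓ : ℝ, ℓ = Real.log (1 / |σ|) := ⟨_, rfl⟩
  have hℓ1 : 1 ≤ ℓ := by
    rw [hℓd, Real.le_log_iff_exp_le (by positivity)]
    have := Real.exp_one_lt_d9
    linarith only [this, hi]
  have hsl' := hsl |σ| hσ0 hσs
  have hsl2 := hsl'' |σ| hσ0 hσs'
  have hwin := window_le_sig (d := d) hc₁ le_rfl hσ hσ1 hσc₁ (by rw [← hℓd]; exact hℓ1)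
  rw [← hℓd] at hsl' hsl2 hwin hg1 hg2 ⊢
  have hℓ0 : 0 < ℓ := by linarith only [hℓ1]
  obtain ⟨w, hw⟩ : ∃ w : ℝ, w = LOC.window d c₁ σ := ⟨_, rfl⟩
  have hw0 : 0 ≤ w := by
    rw [hw]
    unfold LOC.window
    split_ifs <;> positivity
  rw [← hw] at hg1 hwin
  -- `μ₀ = A² σ⁴ ℓ ^ 40`
  obtain ⟨r, hr⟩ : ∃ r : ℝ, r = A * (σ ^ 2 * ℓ ^ 20) := ⟨_, rfl⟩
  have hr0 : 0 < r := by rw [hr]; positivity
  have hre : r ≤ Real.exp (-2) := by
    have h1 : σ ^ 2 * ℓ ^ 20 ≤ η := by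
      calc σ ^ 2 * ℓ ^ 20 = |σ| * (|σ| * ℓ ^ 20) := by rw [hσsq]; ring
        _ ≤ 1 * η := mul_le_mul hσ1 hsl' (by positivity) (by norm_num)
        _ = η := one_mul _
    rw [hr]
    exact (mul_le_mul_of_nonneg_left h1 hA0.le).trans hη1
  have hlogr : 4 ≤ Real.log (1 / r ^ 2) := by
    have h1 : Real.log r ≤ -2 := by
      have := Real.log_le_log hr0 hre
      rwa [Real.log_exp] at this
    rw [one_div, Real.log_inv, Real.log_pow]
    push_cast
    linarith only [h1]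
  have hℓ20 : (1 : ℝ) ≤ ℓ ^ 20 := one_le_pow₀ hℓ1
  have hσr : σ ^ 2 ≤ r := by
    rw [hr]
    have h1 : σ ^ 2 * 1 ≤ σ ^ 2 * ℓ ^ 20 := mul_le_mul_of_nonneg_left hℓ20 hσ2.le
    have h2 : 1 * (σ ^ 2 * ℓ ^ 20) ≤ A * (σ ^ 2 * ℓ ^ 20) :=
      mul_le_mul_of_nonneg_right (by linarith only [hA2]) (by positivity)
    linarith only [h1, h2]
  have hlσ2 : Real.log (σ ^ 2) = -(2 * ℓ) := by
    rw [hσsq, Real.log_pow, hℓd, one_div, Real.log_inv]
    push_cast
    ring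
  have hlogr2 : Real.log (1 / r ^ 2) ≤ 4 * ℓ := by
    have h1 : Real.log (σ ^ 2) ≤ Real.log r := Real.log_le_log hσ2 hσr
    rw [hlσ2] at h1
    rw [one_div, Real.log_inv, Real.log_pow]
    push_cast
    linarith only [h1]
  rcases lt_or_ge D (σ ^ 4) with hcase' | hDσ
  · -- very close to the edge
    have hcase : D + w ≤ r ^ 2 := by
      have e1 : r ^ 2 = A ^ 2 * (σ ^ 4 * ℓ ^ 40) := by rw [hr]; ring
      rw [e1]
      have h1 : (1 : ℝ) ≤ ℓ ^ 40 := one_le_pow₀ hℓ1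
      have h2 : σ ^ 4 * 1 ≤ σ ^ 4 * ℓ ^ 40 := mul_le_mul_of_nonneg_left h1 hσ40.le
      have h3 : D + w ≤ (1 + (4 / c₁ + 1)) * (σ ^ 4 * ℓ ^ 40) := by
        linarith only [hcase', hwin, h2]
      refine h3.trans (mul_le_mul_of_nonneg_right ?_ (by positivity))
      have h4 : A * 1 ≤ A * A := mul_le_mul_of_nonneg_left (by linarith only [hA2]) hA0.le
      rw [pow_two]
      linarith only [h4, hAc, q0]
    by_cases hμ : D + w = 0
    · rw [hμ] at hg1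
      have h1 : g ≤ 0 := by simpa using hg1
      refine h1.trans ?_
      positivity
    have hμ0 : 0 < D + w := lt_of_le_of_ne (by positivity) (Ne.symm hμ)
    have h1 := sqrt_log_mono hℓ0.le hμ0 hcase hlogr
    rw [Real.sqrt_sq hr0.le] at h1
    have h2 : (ℓ + Real.log (1 / r ^ 2)) ^ 2 ≤ (5 * ℓ) ^ 2 :=
      pow_le_pow_left₀ (by linarith only [hℓ0, hlogr]) (by linarith only [hlogr2]) 2
    have q2 : 0 ≤ K * 5 ^ (d + 8) + 1 := by positivity
    calc g ≤ C₁ * Real.sqrt (D + w) * (ℓ + Real.log (1 / (D + w))) ^ 2 := hg1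
      _ = C₁ * (Real.sqrt (D + w) * (ℓ + Real.log (1 / (D + w))) ^ 2) := by ring
      _ ≤ C₁ * (r * (ℓ + Real.log (1 / r ^ 2)) ^ 2) := mul_le_mul_of_nonneg_left h1 hC₁.le
      _ ≤ C₁ * (r * (5 * ℓ) ^ 2) := by gcongr
      _ = 25 * C₁ * A * (σ ^ 2 * ℓ ^ 22) := by rw [hr]; ring
      _ ≤ 25 * C₁ * A * (σ ^ 2 * ℓ ^ (d + 19)) := by
          have h5 : ℓ ^ 22 ≤ ℓ ^ (d + 19) := pow_le_pow_right₀ hℓ1 (by omega)
          gcongr
      _ ≤ (25 * C₁ * A + K * 5 ^ (d + 8) + 1) * (σ ^ 2 * ℓ ^ (d + 19)) :=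
          mul_le_mul_of_nonneg_right (by linarith only [q2]) (by positivity)
      _ = _ := by ring
  · -- `D ≥ σ⁴`
    have hD : 0 < D := lt_of_lt_of_le hσ40 hDσ
    obtain ⟨L, hL⟩ : ∃ L : ℝ, L = ℓ + Real.log (1 / D) := ⟨_, rfl⟩
    rw [← hL] at hg2
    have hlD : Real.log (1 / D) ≤ 4 * ℓ := by
      have h1 : Real.log (σ ^ 4) ≤ Real.log D := Real.log_le_log hσ40 hDσ
      have h2 : Real.log (σ ^ 4) = -(4 * ℓ) := by
        rw [hσ4, Real.log_pow, hℓd, one_div, Real.log_inv]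
        push_cast
        ring
      rw [h2] at h1
      rw [one_div, Real.log_inv]
      linarith only [h1]
    have hlD0 : 0 ≤ Real.log (1 / D) := Real.log_nonneg (by
      rw [le_div_iff₀ hD]
      linarith only [hD75])
    have hL5 : L ≤ 5 * ℓ := by linarith only [hL, hlD]
    have hL0 : 0 ≤ L := by linarith only [hL, hlD0, hℓ0]
    have hg1' : growth d (1 / D) = 1 := by
      unfold growth
      rw [if_neg (by omega), if_neg (by omega)]
    rw [hg1', mul_one] at hg2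
    have h1 := hg2 hD (by
      calc K * σ ^ 2 * L ^ (2 * d + 10) ≤ K * σ ^ 2 * (5 * ℓ) ^ (2 * d + 10) := by gcongr
        _ = (K * 5 ^ (2 * d + 10)) * (|σ| * (|σ| * ℓ ^ (2 * d + 10))) := by
            rw [hσsq, mul_pow]; ring
        _ ≤ (K * 5 ^ (2 * d + 10)) * (1 * (1 / (K * 5 ^ (2 * d + 10)))) := by gcongr
        _ = 1 := by field_simp)
    refine h1.trans ?_
    have h2 : ℓ ^ (d + 8) ≤ ℓ ^ (d + 19) := pow_le_pow_right₀ hℓ1 (by omega)
    have q2 : 0 ≤ 25 * C₁ * A + 1 := by positivity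
    calc K * σ ^ 2 * L ^ (d + 8) ≤ K * σ ^ 2 * (5 * ℓ) ^ (d + 8) := by gcongr
      _ = K * 5 ^ (d + 8) * (σ ^ 2 * ℓ ^ (d + 8)) := by rw [mul_pow]; ring
      _ ≤ K * 5 ^ (d + 8) * (σ ^ 2 * ℓ ^ (d + 19)) := by gcongr
      _ ≤ (25 * C₁ * A + K * 5 ^ (d + 8) + 1) * (σ ^ 2 * ℓ ^ (d + 19)) :=
          mul_le_mul_of_nonneg_right (by linarith only [q2]) (by positivity)
      _ = _ := by ring

end Pool.Agent.LE.H93F
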