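import Pool.Agent.Helper93_LSF.All2
import Pool.Agent.Helper93_LSF3.Final3
import Pool.Agent.Helper93_LIF.CPF
import Pool.Agent.Helper93_LIF.PIF
import Pool.Agent.Helper56_LIR.CLF
import Pool.Agent.Helper34_LIR.NLB

/-!
# The Lyapunov exponent at weak disorder, all dimensions: all modules
-/

set_option autoImplicit false

noncomputable section

namespace Pool.Agent.LE.H93F

open Pool.Agent.LE.CL Pool.Agent.LE.IR

theorem clfT : IR.ClfStmt :=
  IR.H56.clf (IR.H32.ble CL.H17.laq (IR.H24.hse IR.H54.ftb) (IR.H46.pae IR.H54.ftb)) IR.H54.srcT IR.H54.smsT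
    IR.H95.cvb

theorem cpfT : IR.CpfStmt :=
  IR.H93F.cpf IR.H54.floT IR.H54.khlT IR.H54.ffbT IR.H54.smsT IR.H54.tseT clfT IR.H34.nlb

theorem pifT : IR.PifStmt := IR.H93F.pif cpfT CL.H54.crgT

end Pool.Agent.LE.H93F
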