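import Pool.Agent.Helper93_LSF3.All3
import Pool.Agent.Helper93_LQD.All

/-!
# MP_1906c1_mp: the effective mobility edge at weak disorder

For `H = Δ + σ ξ` on `ℤ^d`, `d ≥ 3`, `ξ` iid standard Gaussian, let `γ(σ, E) ≥ 0` be the typical
exponential decay rate of the Green function, `1 / γ` the localization length; it is also the exact
decay rate of all the eigenfunctions with energy `E`. At weak disorder there is an energy
`Es(σ) = 2 d + G σ² + o(σ²)`, `G = (2 d - Δ)⁻¹(0, 0)`, with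

* outside: `H` is exponentially localized in `|E| ≥ Es + W`, and `γ(σ, E) = (1 + o(1)) √(|E| - Es)`
  there (near `Es`), the decay rate of the free particle with the edge `Es`. The window `W` is
  `C σ⁴ log² σ` for `d = 3`, `exp(-c / |σ|)` for `d = 4`, `exp(-c / σ²)` for `d ≥ 5`;
* inside: the localization length `1 / γ` is at least the mean free path `σ⁻²`, up to a power of
  `log (1 / |σ|)`, for ALL `|E| ≤ Es`, and larger, at least `c |σ|^(-2 - 1 / 32)`, for
  `|E| ≤ 2 d - δ`.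

So at weak disorder the localization length changes from `(|E| - Es)^(-1/2)` to at least `σ⁻²`, up to
logarithms, in the window `| |E| - Es | ≤ W`. Whether `γ = 0` inside is the open question.

The proof. (1) The landscape function `w = (z - σ ξ - Δ)⁻¹ 1` on a torus of side `t` is constant up
to two percent, and of size `10 t`, at an energy `z = Es`, with a probability close to one
(`BandEdgeDelocalization`). So all eigenvalues in cubes of radius `t / 8` are less than `Es`, the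
ground state representation with `w` gives the sharp rate `(1 - ε) √(E - Es)` at the scale `t / 8`, a
multiscale induction starts there, and the position of `z` is computed with trial functions and
Lifshitz type large deviations.
(2) A site `y` is linked to `x` if `|G(x, y)| ≥ e^{-s}`, `s = C log (1 / |σ|)`, `G` the Green function of
a large cube at the real energy `E`. If `γ(σ, E) > κ`, the large cubes insulate, and the map
`F = (F_1, …, F_d)`, `F_i(x) = - log max {|G(z, x)| : z in the i-th face}` of a cube of side `R` covers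
a cube of side `κ R / 4` (Poincaré-Miranda), while `F` is nearly constant on the clusters of linked
sites. If the clusters at the scale `ℓ` have at least `c ℓ^d` sites, `κ ≤ C s log / ℓ`.
(3) Inside the band the clusters have this size for `ℓ = 1 / η'`, `η' ≈ σ²` in the bulk,
`η' ≈ σ² growth √lam` near the edge (up to logarithms): otherwise there is a set `C` of sites, almost
closed under links, with too few elements, the truncated columns of `G` solve
`(E - H) ψ_x = δ_x + (tiny)` in it, and the pairing with a Fourier multiplier which is concentrated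
near a point of the energy surface of the free operator gives a contradiction. The free operator is
compared with `E - H` in the bulk, with `ω (E - H) ω = - div ω ω grad + …`, `ω` the landscape
function, near the edge; the difference is small relative to `|2 d - Δ - l| + η` by the
noncommutative Khintchine inequality. At the edge the same is done with the Faber-Krahn inequality.
(4) Beyond the mean free path, `η = |σ|^{2 + 1/15}`: the diagonal of the resolvent on a torus is
nearly constant by Gaussian concentration (an `ℓ⁴` bound, from the decay `t^{-1/3}` of the kernel of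
`e^{i t Δ}` in each coordinate), so the mean of `|G(x, y)|²` is given by the ladder equation up to a
relative error `|σ|^{1/30}`, the mass in `|σ|^{- d / 31}` cubes of side `σ⁻²` is small relative to
`1 / η`, and a set of sites, almost closed under links, cannot be contained in so few cubes.
-/

set_option autoImplicit false

open MeasureTheory ProbabilityTheory Filter

open scoped ENNReal ComplexInnerProductSpace Topology

noncomputable section

namespace Pool.Agent.Results.MP_1906c1_mp.EffectiveMobilityEdge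

open Pool.Agent.Anderson Pool.Agent.Loc Pool.Agent.Helper54.Bal

universe u

variable {d : ℕ}

/-- Exponential decay, at the rate `κ`, of the Green function of `H = Δ + V` in the cube
`Loc.box 0 L`, `|x|_∞ ≤ L`, from the centre to the boundary: `E` is not an eigenvalue of the
restriction of `H` to the cube and the matrix element at `0`, `u` of the inverse of `E - H` in the
cube is at most `e^{-κ L}` for all `u` with `|u|_∞ = L`. -/
def Decays (V : Site d → ℝ) (E κ : ℝ) (L : ℕ) : Prop :=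
  (RM V (Loc.box 0 L) E).det ≠ 0 ∧ ∀ u, sd 0 u = L → |gr V (Loc.box 0 L) E 0 u| ≤ Real.exp (-κ * L)

/-- The probability of decay, for `V = σ ξ`, `ξ` independent standard Gaussians. -/
def prob (d : ℕ) (σ E κ : ℝ) (L : ℕ) : ℝ≥0∞ :=
  (Measure.infinitePi fun _ : Site d => gaussianReal 0 1)
    {ξ : Site d → ℝ | Decays (fun x => σ * ξ x) E κ L}

/-- `√t` for `d = 3`, `1 + log t` for `d = 4`, `1` for `d ≥ 5` -/
def growth (d : ℕ) (t : ℝ) : ℝ :=
  if d = 3 then Real.sqrt t else if d = 4 then 1 + Real.log t else 1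

/-- The width of the window about the effective mobility edge: `σ⁴ (1 + log (1 / |σ|))² / c` for
`d = 3`, `exp (-c / |σ|)` for `d = 4`, `exp (-c / σ²)` for `d ≥ 5`. -/
def window (d : ℕ) (c σ : ℝ) : ℝ :=
  if d = 3 then σ ^ 4 * (1 + Real.log (1 / |σ|)) ^ 2 / c
  else if d = 4 then Real.exp (-c / |σ|) else Real.exp (-c / σ ^ 2)

/-- The number of nearest neighbour walks on `ℤ^d` with `n` steps from `0` to `x`. -/
def walks : ℕ → Site d → ℕ
  | 0, x => if x = 0 then 1 else 0
  | n + 1, x => ∑ i : Fin d, (walks n (x + Pi.single i 1) + walks n (x - Pi.single i 1))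

/-- The Green function of the lattice, `(2 d - Δ)⁻¹(0, 0) = ∑ₙ walks n 0 / (2 d)^(n+1)`. -/
def latticeGreen (d : ℕ) : ℝ := ∑' n : ℕ, (walks n (0 : Site d) : ℝ) / (2 * d) ^ (n + 1)

theorem walks_eq : ∀ (n : ℕ) (x : Site d), walks n x = Pool.Agent.Loc.walks n x
  | 0, _ => rfl
  | n + 1, x => by
    unfold walks Pool.Agent.Loc.walks
    exact Finset.sum_congr rfl fun i _ => by rw [walks_eq n, walks_eq n]

theorem latticeGreen_eq (d : ℕ) : latticeGreen d = watson d := by
  unfold latticeGreen watson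
  exact tsum_congr fun n => by rw [walks_eq]

theorem prob_eq (σ E κ : ℝ) (L : ℕ) : prob d σ E κ L = Pool.Agent.LE.H93.pr d σ E κ L := by
  have hm : ∀ y : Site d, Measurable fun ξ : Site d → ℝ => ξ y := fun y => measurable_pi_apply y
  have hlaw : ∀ y : Site d, (Measure.infinitePi fun _ : Site d => gaussianReal 0 1).map
      (fun ξ => ξ y) = gaussianReal 0 1 := fun y =>
    (measurePreserving_eval_infinitePi (fun _ : Site d => gaussianReal 0 1) y).map_eq
  have hind : iIndepFun (fun (y : Site d) (ξ : Site d → ℝ) => ξ y)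
      (Measure.infinitePi fun _ : Site d => gaussianReal 0 1) :=
    iIndepFun_infinitePi (P := fun _ : Site d => gaussianReal 0 1) (X := fun _ t => t)
      (fun _ => measurable_id)
  have h := Pool.Agent.Mob.H42.map_eq_PP hm hlaw hind σ
  unfold Pool.Agent.LE.H93.pr prob
  rw [← h, Measure.map_apply (Pool.Agent.Mob.H42.measurable_W hm σ)
    (Pool.Agent.LE.H93.meas_SG L κ E 0)]
  rfl

/-- Let `d ≥ 3`, `H = Δ + σ ξ` with `ξ(y)`, `y ∈ ℤ^d`, independent standard Gaussians. There are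
functions `γ` and `Es` such that for every `σ ≠ 0`, every real `E` and every `ε > 0`:
`γ(σ, E) ≥ 0`, the probability of decay at the rate `γ(σ, E) + ε` in the cube of radius `L` tends to
`0`, and the probability of decay at the rate `γ(σ, E) - ε` tends to `1`, as `L → ∞`; and

* (near the effective mobility edge, and outside) for each `0 < ε < 1` there are `c, C > 0` such that
  for `0 < |σ| ≤ c`, with `W = window d c σ`:
  `|Es(σ) - (2 d + G σ²)| ≤ C |σ|^(2 + 1 / (24 d))`, `G = (2 d - Δ)⁻¹(0, 0)`;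
  `γ(σ, E) ≥ c √(min (|E| - Es) 1)` for all `|E| ≥ Es + W`, and
  `(1 - ε) √(|E| - Es) ≤ γ(σ, E) ≤ (1 + ε) √(|E| - Es)` if also `|E| ≤ Es + c`;
  `γ(σ, E) ≤ C √lam (log (1 / |σ|) + log (1 / lam))²`, `lam = | |E| - Es | + W`, for all `E` with
  `| |E| - Es | ≤ c`; and for each family `ξ` of independent standard Gaussians, almost surely: if
  `|E| ≥ Es + W` for all `E` in `[a - r, a + r]`, a vector `u ∈ ℓ²` with `w = H u ∈ ℓ²` which is
  orthogonal to the eigenfunctions with eigenvalues in `[a - r, a + r]` satisfies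
  `‖(H - a) u‖ ≥ r ‖u‖`: the spectrum is pure point there;
* (inside) there are `c, C > 0` such that for `0 < |σ| ≤ c`:
  `γ(σ, E) ≤ C σ² log (1 / |σ|)^(d + 19)` for ALL `|E| ≤ Es`; and if `0 < lam = Es - |E| ≤ c`,
  `L = log (1 / |σ|) + log (1 / lam)`, `C σ² growth(d, 1 / lam)² L^(2 d + 10) ≤ lam^((d - 4) / 2)`,
  then `γ(σ, E) ≤ C σ² growth(d, 1 / lam) √lam L^(d + 6)`;
* (inside) for each `δ > 0` there are `c, C > 0` such that for `0 < |σ| ≤ c`,
  `γ(σ, E) ≤ C |σ|^(2 + 1 / 32)` for all `|E| ≤ 2 d - δ`;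
* for each `σ ≠ 0` and each family `ξ` of independent standard Gaussians, almost surely: for every
  real `E` every nonzero polynomially bounded solution of `H ψ = E ψ` is `O(e^{-m |x|})` for all
  `m < γ(σ, E)` and for no `m > γ(σ, E)`. -/
theorem result (d : ℕ) (hd : 3 ≤ d) :
    ∃ (γ : ℝ → ℝ → ℝ) (Es : ℝ → ℝ),
    (∀ σ : ℝ, σ ≠ 0 → ∀ E : ℝ, 0 ≤ γ σ E ∧ ∀ ε : ℝ, 0 < ε →
      Tendsto (prob d σ E (γ σ E + ε)) atTop (𝓝 0) ∧
      Tendsto (prob d σ E (γ σ E - ε)) atTop (𝓝 1)) ∧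
    (∀ ε : ℝ, 0 < ε → ε < 1 → ∃ c C : ℝ, 0 < c ∧ 0 < C ∧ ∀ σ : ℝ, σ ≠ 0 → |σ| ≤ c →
      |Es σ - (2 * d + latticeGreen d * σ ^ 2)| ≤ C * |σ| ^ (2 + 1 / (24 * d : ℝ)) ∧
      (∀ E : ℝ, Es σ + window d c σ ≤ |E| →
        c * Real.sqrt (min (|E| - Es σ) 1) ≤ γ σ E ∧
        (|E| ≤ Es σ + c → (1 - ε) * Real.sqrt (|E| - Es σ) ≤ γ σ E ∧
          γ σ E ≤ (1 + ε) * Real.sqrt (|E| - Es σ))) ∧
      (∀ E lam : ℝ, lam = |(|E| - Es σ)| + window d c σ → |(|E| - Es σ)| ≤ c →
        γ σ E ≤ C * Real.sqrt lam * (Real.log (1 / |σ|) + Real.log (1 / lam)) ^ 2) ∧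
      ∀ (Ω : Type u) [MeasurableSpace Ω] (P : Measure Ω) [IsProbabilityMeasure P]
        (ξ : Site d → Ω → ℝ), (∀ y, Measurable (ξ y)) →
        (∀ y, P.map (ξ y) = gaussianReal 0 1) → iIndepFun ξ P →
        ∀ᵐ ω ∂P, ∀ a r : ℝ,
          (∀ E ∈ Set.Icc (a - r) (a + r), Es σ + window d c σ ≤ |E|) → ∀ u w : L2 d,
          (∀ x, w x = lap u x + ((σ * ξ x ω : ℝ) : ℂ) * u x) →
          (∀ (E : ℝ) (ψ : L2 d), E ∈ Set.Icc (a - r) (a + r) →
            IsEigen (fun x => σ * ξ x ω) E ψ → ⟪ψ, u⟫ = 0) →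
          r * ‖u‖ ≤ ‖w - (a : ℂ) • u‖) ∧
    (∃ c C : ℝ, 0 < c ∧ 0 < C ∧ ∀ σ : ℝ, σ ≠ 0 → |σ| ≤ c →
      (∀ E : ℝ, |E| ≤ Es σ → γ σ E ≤ C * σ ^ 2 * Real.log (1 / |σ|) ^ (d + 19)) ∧
      ∀ E lam L : ℝ, lam = Es σ - |E| → 0 < lam → lam ≤ c →
        L = Real.log (1 / |σ|) + Real.log (1 / lam) →
        C * σ ^ 2 * growth d (1 / lam) ^ 2 * L ^ (2 * d + 10) ≤ lam ^ (((d : ℝ) - 4) / 2) →
        γ σ E ≤ C * σ ^ 2 * growth d (1 / lam) * Real.sqrt lam * L ^ (d + 6)) ∧
    (∀ δ : ℝ, 0 < δ → ∃ c C : ℝ, 0 < c ∧ 0 < C ∧ ∀ σ E : ℝ, σ ≠ 0 → |σ| ≤ c →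
      |E| ≤ 2 * d - δ → γ σ E ≤ C * |σ| ^ (2 + 1 / 32 : ℝ)) ∧
    ∀ σ : ℝ, σ ≠ 0 → ∀ (Ω : Type u) [MeasurableSpace Ω] (P : Measure Ω) [IsProbabilityMeasure P]
      (ξ : Site d → Ω → ℝ), (∀ y, Measurable (ξ y)) →
      (∀ y, P.map (ξ y) = gaussianReal 0 1) → iIndepFun ξ P →
      ∀ᵐ ω ∂P, ∀ (E : ℝ) (ψ : Site d → ℂ), (∃ x, ψ x ≠ 0) →
        (∃ (B : ℝ) (k : ℕ), ∀ x, ‖ψ x‖ ≤ B * (1 + (sd 0 x : ℝ)) ^ k) →
        (∀ x, lap ψ x + ((σ * ξ x ω : ℝ) : ℂ) * ψ x = (E : ℂ) * ψ x) →
        (∀ m : ℝ, m < γ σ E → ∃ B : ℝ, ∀ x, ‖ψ x‖ ≤ B * Real.exp (-m * sd 0 x)) ∧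
        ∀ m B : ℝ, γ σ E < m → ¬ ∀ x, ‖ψ x‖ ≤ B * Real.exp (-m * sd 0 x) := by
  obtain ⟨γ, Es, h0, h1, ⟨c, C, hc, -, hC, h2⟩, h3, h4⟩ :=
    Pool.Agent.LE.H93F.final3.{u} Pool.Agent.LE.H93F.qmfT Pool.Agent.LE.CL.H54.pbdT
      Pool.Agent.LE.H93Z.fleT Pool.Agent.LE.H93Z.sgxT Pool.Agent.LE.H93Z.smsT
      Pool.Agent.LE.H93Z.cdpT Pool.Agent.LE.H93Z.upxT Pool.Agent.LE.IR.H54.flqT
      Pool.Agent.LE.IR.H54.pieT Pool.Agent.LE.H93F.pifT
      (fun σ => |σ| ^ (2 + 1 / 32 : ℝ)) d hd (fun δ hδ => Pool.Agent.LE.QD.H93.qdfT d δ hd hδ)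
  refine ⟨γ, Es, fun σ hσ E => ⟨(h0 σ hσ E).1, fun ε hε => ?_⟩, ?_, ⟨c, C, hc, by linarith,
    fun σ hσ hσc => ⟨(h2 σ hσ hσc).2.2, (h2 σ hσ hσc).1⟩⟩, fun δ hδ => ?_, h4⟩
  · have e : ∀ κ, prob d σ E κ = Pool.Agent.LE.H93.pr d σ E κ :=
      fun κ => funext fun L => prob_eq σ E κ L
    rw [e, e]
    exact (h0 σ hσ E).2 ε hε
  · rw [latticeGreen_eq]
    exact h1
  · obtain ⟨c, C, hc, -, hC, h⟩ := h3 δ hδ
    exact ⟨c, C, hc, hC, h⟩

end Pool.Agent.Results.MP_1906c1_mp.EffectiveMobilityEdge
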